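import Pool.Agent.Helper57.MPell.Cube

set_option autoImplicit false

/-!
# Powerful Mersenne numbers and primes `p` with `2^(p-1) = 1` modulo `p^3`

If `q` is prime and `2^q - 1` is powerful, some prime `p = 7` modulo `8` has `p^3 ∣ 2^q - 1`, and
`q` is the order of `2` modulo `p`. Hence the number of primes `q ≤ x` with `2^q - 1` powerful is
at most the number of primes `p = 7` modulo `8` with `p^3 < 2^x` and `p^3 ∣ 2^(p-1) - 1`.

Proof: write `2^q - 1 = b w^2` with `b` squarefree. Then `b = 7` modulo `8`, and the prime factors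
of `2^q - 1` are `1` or `7` modulo `8`, since `2` is a square modulo each of them; so `b` has a
prime factor `p = 7` modulo `8`, of odd exponent in `2^q - 1`.
-/

namespace Pool.Agent.Results.MP_ea234d_nt.CubeWieferich

theorem result :
    (∀ q : ℕ, q.Prime → (∀ r : ℕ, r.Prime → r ∣ 2 ^ q - 1 → r ^ 2 ∣ 2 ^ q - 1) →
      ∃ p : ℕ, p.Prime ∧ p % 8 = 7 ∧ orderOf (2 : ZMod p) = q ∧ p ^ 3 ∣ 2 ^ q - 1 ∧
        p ^ 3 ∣ 2 ^ (p - 1) - 1) ∧
    (∀ x : ℕ,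
      {q : ℕ | q.Prime ∧ q ≤ x ∧ ∀ r : ℕ, r.Prime → r ∣ 2 ^ q - 1 → r ^ 2 ∣ 2 ^ q - 1}.ncard ≤
      {p : ℕ | p.Prime ∧ p % 8 = 7 ∧ p ^ 3 < 2 ^ x ∧ p ^ 3 ∣ 2 ^ (p - 1) - 1}.ncard) :=
  ⟨fun _ hq h => Helper57.MPell.cube hq h, Helper57.MPell.count⟩

end Pool.Agent.Results.MP_ea234d_nt.CubeWieferich
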