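import Pool.Agent.Helper57.MPell.Cube

set_option autoImplicit false

/-!
# Powerful Mersenne numbers and fundamental solutions of Pell equations

Let `q ≥ 3` be odd and `2^q - 1 = b w^2` with `b` squarefree. Then
`(T, U) = (2^(q+1) - 1, 2^((q+1)/2) w)` is the smallest positive solution of `T^2 = 2 b U^2 + 1`,
and `2^q - 1` is powerful if and only if `b ∣ U`. Different `q` have different `b`.

Proof of minimality: let `a` be the fundamental solution and let the solution above be `a^n`. If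
`n = 2m` then `2^(q+1) = 2 x(a^m)^2`, so `2^q` would be a square. If `n = 2m+1`, then
`2^(q+1) = x(a^n) + 1 = (x(a) + 1) V^2` with `V` odd, so `V^2 = 1` and `x(a) = 2^(q+1) - 1`.
-/

namespace Pool.Agent.Results.MP_ea234d_nt.PellCriterion

theorem result :
    (∀ q b w : ℕ, Odd q → 3 ≤ q → Squarefree b → 2 ^ q - 1 = b * w ^ 2 →
      (2 ^ (q + 1) - 1) ^ 2 = 2 * b * (2 ^ ((q + 1) / 2) * w) ^ 2 + 1 ∧
      (∀ T U : ℕ, 0 < U → T ^ 2 = 2 * b * U ^ 2 + 1 → 2 ^ (q + 1) - 1 ≤ T) ∧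
      ((∀ p : ℕ, p.Prime → p ∣ 2 ^ q - 1 → p ^ 2 ∣ 2 ^ q - 1) ↔
        b ∣ 2 ^ ((q + 1) / 2) * w)) ∧
    (∀ q q' b w w' : ℕ, Odd q → Odd q' → 3 ≤ q → 3 ≤ q' → Squarefree b →
      2 ^ q - 1 = b * w ^ 2 → 2 ^ q' - 1 = b * w' ^ 2 → q = q') :=
  ⟨fun _ _ _ ho hq hb h => ⟨Helper57.MPell.pell_identity ho h,
      fun T U hU hTU => Helper57.MPell.fundamental ho hq hb h T U hU hTU,
      Helper57.MPell.powerful_iff (by omega) hb h _⟩,
    fun _ _ _ _ _ ho ho' hq hq' hb h h' =>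
      Helper57.MPell.injective_part ho ho' hq hq' hb h h'⟩

end Pool.Agent.Results.MP_ea234d_nt.PellCriterion
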